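import Pool.Agent.Lib.MP_c7af3c_ag.GEN.Groups

/-! Module GRPL. -/

set_option autoImplicit false

namespace Pool.Agent.Gen.H26

open AlgebraicGeometry CategoryTheory CategoryTheory.Limits MonoidalCategory
  CartesianMonoidalCategory MonObj
open MvPolynomial (homogeneousSubmodule)

section

variable (k : Type) [Field k]

/-- the base as a scheme over itself -/
noncomputable abbrev ptS : Over (Spec (CommRingCat.of k)) := Over.mk (𝟙 _)

/-- the structure morphism -/
noncomputable def str (T : Over (Spec (CommRingCat.of k))) : T ⟶ ptS k :=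
  Over.homMk T.hom (by simp)

theorem comp_str {T T' : Over (Spec (CommRingCat.of k))} (f : T ⟶ T') :
    f ≫ str k T' = str k T := by
  apply Over.OverMorphism.ext
  simp [str]

/-- the closed point of `Spec k[ε]` -/
noncomputable def iot : ptS k ⟶ dualOver k :=
  Over.homMk (Spec.map (CommRingCat.ofHom (TrivSqZeroExt.fstHom k k k).toRingHom)) (by
    change Spec.map _ ≫ Spec.map _ = 𝟙 _
    rw [← Spec.map_comp, ← CommRingCat.ofHom_comp]
    have : ((TrivSqZeroExt.fstHom k k k).toRingHom).comp (algebraMap k (DualNumber k)) =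
      RingHom.id k := (TrivSqZeroExt.fstHom k k k).comp_algebraMap
    rw [this]
    exact Spec.map_id _)

theorem rho_zero : rho k 0 = str k (dualOver k) ≫ iot k := by
  apply Over.OverMorphism.ext
  change Spec.map _ = Spec.map _ ≫ Spec.map _
  rw [← Spec.map_comp, ← CommRingCat.ofHom_comp]
  congr 2
  refine RingHom.ext fun x => ?_
  change TrivSqZeroExt.map ((0 : k) • LinearMap.id : k →ₗ[k] k) x =
    algebraMap k (DualNumber k) (TrivSqZeroExt.fst x)
  refine TrivSqZeroExt.ext ?_ ?_
  · rw [TrivSqZeroExt.fst_map]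
    rfl
  · simp [TrivSqZeroExt.algebraMap_eq_inl]

theorem rho_comp_rho_zero (a : k) : rho k a ≫ rho k 0 = rho k 0 := by
  rw [rho_zero, ← Category.assoc, comp_str]

end

theorem grpl (hFin : GfinStatement) (hGen : GgenStatement) (hDual : GdualStatement)
    (hTz : GtzeroStatement) (hTan : GtanStatement) (hFib : GfibStatement) : GrplStatement := by
  intro k _ _ _ n c d F hom alg hd X hX cm A gA hAint hAprop g
  obtain ⟨inst, i, hi, hiX, hiF⟩ := hX
  have hYsep : IsSeparated (projStr k n) := by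
    unfold projStr
    infer_instance
  let Y : Over (Spec (CommRingCat.of k)) := Over.mk (projStr k n)
  have hφ : (g.left ≫ i) ≫ projStr k n = A.hom := by
    rw [Category.assoc, hiX, Over.w]
  let φ : A ⟶ Y := Over.homMk (g.left ≫ i) hφ
  have key : ∀ v : dualOver k ⟶ A, rho k 0 ≫ v ≫ φ = v ≫ φ := by
    intro v
    let Q : ptS k ⟶ A := iot k ≫ v
    have hQ : rho k 0 ≫ v = str k (dualOver k) ≫ Q := by
      rw [rho_zero, Category.assoc]
    let w : dualOver k ⟶ A := (rho k 0 ≫ v)⁻¹ * v
    have hw : rho k 0 ≫ w = 1 := by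
      change rho k 0 ≫ ((rho k 0 ≫ v)⁻¹ * v) = 1
      rw [comp_mul, GrpObj.comp_inv, ← Category.assoc, rho_comp_rho_zero, inv_mul_cancel]
    have hw' : ∀ m : ℕ, (rho k 0 ≫ v) * w ^ m = rho k m ≫ v := by
      intro m
      rw [hDual k A w hw m]
      change _ * (rho k m ≫ ((rho k 0 ≫ v)⁻¹ * v)) = _
      rw [comp_mul, GrpObj.comp_inv, ← Category.assoc (rho k (m : k)), rho_comp_rho_zero,
        mul_inv_cancel_left]
    obtain ⟨K', _, _, _, P, hP⟩ := hGen k A hAint
    obtain ⟨n₁, n₂, hne, heq⟩ := hFin k n c d F hom alg hd A hAprop (g.left ≫ i) hφ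
      (fun a m => hiF (g.left.base a) m) K' P (str k (ptOver k K') ≫ Q)
    let ψ : ℕ → (A ⟶ A) := fun m => (str k A ≫ Q) * (𝟙 A) ^ m
    have hPψ : ∀ m, P ≫ ψ m = (str k (ptOver k K') ≫ Q) * P ^ m := by
      intro m
      change P ≫ ((str k A ≫ Q) * (𝟙 A) ^ m) = _
      rw [comp_mul, comp_pow, Category.comp_id, ← Category.assoc, comp_str]
    have h1 : ψ n₁ ≫ φ = ψ n₂ ≫ φ := by
      apply hP Y hYsep
      rw [← Category.assoc, ← Category.assoc, hPψ, hPψ]
      apply Over.OverMorphism.ext
      exact heq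
    have hwψ : ∀ m, w ≫ ψ m = rho k m ≫ v := by
      intro m
      rw [← hw' m]
      change w ≫ ((str k A ≫ Q) * (𝟙 A) ^ m) = _
      rw [comp_mul, comp_pow, Category.comp_id, ← Category.assoc, comp_str, hQ]
    have h2 : rho k n₁ ≫ v ≫ φ = rho k n₂ ≫ v ≫ φ := by
      rw [← Category.assoc, ← Category.assoc, ← hwψ, ← hwψ, Category.assoc, Category.assoc, h1]
    apply Over.OverMorphism.ext
    exact hTz k Y.left (v ≫ φ).left n₁ n₂ hne (congrArg (fun f => f.left) h2)
  have hconst := hTan k A Y hAint (by infer_instance) hYsep φ key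
  exact hFib A.left X.left _ hAint g.left i hi hconst

end Pool.Agent.Gen.H26
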