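import Pool.Agent.Lib.MP_c7af3c_ag.GEN.H26.Main
import Pool.Agent.Lib.MP_c7af3c_ag.GEN.H26.Grpl
import Pool.Agent.Lib.MP_c7af3c_ag.GEN.H32.Gfib
import Pool.Agent.Lib.MP_c7af3c_ag.GEN.H33.Gchart
import Pool.Agent.Lib.MP_c7af3c_ag.GEN.H33.Gtzero
import Pool.Agent.Lib.MP_c7af3c_ag.GEN.H41.Gfin
import Pool.Agent.Lib.MP_c7af3c_ag.GEN.H58.Gtan
import Pool.Agent.Lib.MP_c7af3c_ag.GEN.H70.Gproj
import Pool.Agent.Lib.MP_c7af3c_ag.GEN.H72.Grat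
import Pool.Agent.Lib.MP_c7af3c_ag.GEN.H82.Gval
import Pool.Agent.Lib.MP_c7af3c_ag.GEN.H83.Ggen
import Pool.Agent.Lib.MP_c7af3c_ag.GEN.H91.Gdual

/-! Assembly of the groupless side (MP_c7af3c_ag, project GEN). -/

namespace Pool.Agent.Gen.H26

theorem gfinAll : GfinStatement :=
  H41.gfin thmlAll (H82.gmul H72.grat) (H82.gval H72.grat) H33.gchart H70.gproj

theorem grplAll : GrplStatement :=
  grpl gfinAll H83.ggen H91.gdual H33.gtzero H58.gtan H32.gfib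

end Pool.Agent.Gen.H26
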