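import Pool.Agent.Lib.MP_c7af3c_ag.GEN.Base

/-! Module LIN. -/

set_option autoImplicit false

namespace Pool.Agent.Gen.H26

open MvPolynomial Pool.Agent.Gen

variable {L : Type} [Field L] {n c : ℕ} {d : Fin c → ℕ} (S : Sys L n c d)

/-- the functionals `F'_m(x)` -/
noncomputable def phi : (Fin (n + 1) → L) →ₗ[L] (Fin c → L) where
  toFun u m := ∑ p, eval S.x (pderiv p (S.F m)) * u p
  map_add' u v := by
    funext m
    simp [mul_add, Finset.sum_add_distrib]
  map_smul' a u := by
    funext m
    simp only [Pi.smul_apply, smul_eq_mul, RingHom.id_apply, Finset.mul_sum]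
    exact Finset.sum_congr rfl fun p _ => by ring

theorem phi_apply (u : Fin (n + 1) → L) (m : Fin c) :
    phi S u m = ∑ p, eval S.x (pderiv p (S.F m)) * u p := rfl

theorem phi_V {m : Fin c} {G : MvPolynomial (Fin (n + 1)) L} (hG : G.IsHomogeneous (d m)) :
    phi S (S.V m G) = Pi.single m (- eval S.x G) := by
  funext m'
  rw [phi_apply, S.rel m m' G hG]
  by_cases h : m = m'
  · subst h; simp
  · rw [if_neg h, Pi.single_eq_of_ne (Ne.symm h)]

theorem phi_x : phi S S.x = 0 := by
  funext m
  have h := (S.hom m).sum_X_mul_pderiv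
  have h2 := congrArg (eval S.x) h
  rw [map_sum] at h2
  simp only [map_mul, eval_X, map_nsmul, S.zero, smul_zero] at h2
  rw [phi_apply]
  simp only [Pi.zero_apply]
  rw [← h2]
  exact Finset.sum_congr rfl fun p _ => mul_comm _ _

theorem hom_XI {m : Fin c} {I : Fin (n + 1) →₀ ℕ} (hI : I.degree + 1 = d m) (i : Fin (n + 1)) :
    (X i * monomial I (1 : L)).IsHomogeneous (d m) := by
  have h := (isHomogeneous_X L i).mul (isHomogeneous_monomial (1 : L) (rfl : I.degree = I.degree))
  have h1 : 1 + I.degree = d m := by omega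
  rwa [h1] at h

theorem hom_XF (m : Fin c) (p q : Fin (n + 1)) :
    (X q * pderiv p (S.F m)).IsHomogeneous (d m) := by
  by_cases h0 : d m = 0
  · have h1 : S.F m = C (coeff 0 (S.F m)) := by
      have := S.hom m
      rw [h0] at this
      exact totalDegree_eq_zero_iff_eq_C.1 (Nat.le_zero.1 this.totalDegree_le)
    rw [h1, pderiv_C, mul_zero]
    exact isHomogeneous_zero _ _ _
  · have h2 := (isHomogeneous_X L q).mul ((S.hom m).pderiv (i := p))
    have h3 : 1 + (d m - 1) = d m := by omega
    rwa [h3] at h2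

/-- the columns which are not `U` -/
def nonU (d : Fin c → ℕ) : Set (Col n c) :=
  {C | C.Ok d ∧ ∀ m, C ≠ Col.U m}

/-- value of a non-`U` column -/
noncomputable def vv (C : Col n c) : Fin (n + 1) → L := C.val S 0

theorem val_eq_vv {C : Col n c} (hC : ∀ m, C ≠ Col.U m) (i : Fin (n + 1)) :
    C.val S i = vv S C := by
  cases C with
  | pt => rfl
  | Z m i j I => rfl
  | W p q => rfl
  | U m => exact absurd rfl (hC m)

theorem phi_vv {C : Col n c} (hC : C ∈ nonU (n := n) d) : phi S (vv S C) = 0 := by
  obtain ⟨hok, hU⟩ := hC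
  cases C with
  | pt => exact phi_x S
  | Z m i j I =>
    simp only [Col.Ok] at hok
    change phi S (S.x j • S.V m (X i * monomial I 1) - S.x i • S.V m (X j * monomial I 1)) = 0
    rw [map_sub, map_smul, map_smul, phi_V S (hom_XI hok i), phi_V S (hom_XI hok j),
      ← Pi.single_smul, ← Pi.single_smul, ← Pi.single_sub]
    have : S.x j • -(eval S.x) (X i * monomial I (1 : L)) -
        S.x i • -(eval S.x) (X j * monomial I (1 : L)) = 0 := by
      simp only [map_mul, eval_X, smul_eq_mul]
      ring
    rw [this, Pi.single_zero]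
  | W p q =>
    change phi S (S.x q • Pi.single p 1 + ∑ m, S.V m (X q * pderiv p (S.F m))) = 0
    rw [map_add, map_smul, map_sum]
    funext m'
    simp only [Pi.add_apply, Pi.smul_apply, Finset.sum_apply, Pi.zero_apply, smul_eq_mul]
    rw [phi_apply, Finset.sum_eq_single p (fun b _ hb => by
      rw [Pi.single_eq_of_ne hb, mul_zero]) (fun h => absurd (Finset.mem_univ p) h),
      Finset.sum_eq_single m' (fun b _ hb => by
        rw [phi_V S (hom_XF S b p q), Pi.single_eq_of_ne (Ne.symm hb)])
        (fun h => absurd (Finset.mem_univ _) h), phi_V S (hom_XF S m' p q)]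
    simp only [Pi.single_eq_same, map_mul, eval_X]
    ring
  | U m => exact absurd rfl (hU m)

/-- the span of the non-`U` columns -/
noncomputable def TT : Submodule L (Fin (n + 1) → L) :=
  Submodule.span L (vv S '' (nonU (n := n) d))

theorem TT_le : TT S ≤ LinearMap.ker (phi S) := by
  rw [TT, Submodule.span_le]
  rintro _ ⟨C, hC, rfl⟩
  exact phi_vv S hC

theorem prod_map_X (t : Multiset (Fin (n + 1))) :
    (t.map (X : Fin (n + 1) → MvPolynomial (Fin (n + 1)) L)).prod =
      monomial (Multiset.toFinsupp t) 1 := by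
  induction t using Multiset.induction_on with
  | empty => simp
  | cons a t iht =>
    rw [Multiset.map_cons, Multiset.prod_cons, iht, X, monomial_mul, one_mul]
    congr 1
    rw [← Multiset.singleton_add, map_add, Multiset.toFinsupp_singleton]

theorem degree_toFinsupp (s : Multiset (Fin (n + 1))) :
    (Multiset.toFinsupp s).degree = s.card := by
  rw [Finsupp.degree_eq_sum]
  have := Multiset.toFinsupp_sum_eq s
  rw [Finsupp.sum] at this
  rw [← this]
  refine (Finset.sum_subset (Finset.subset_univ _) fun x _ hx => ?_).symm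
  simpa using hx

/-- key recursion for a functional killing the `Z` columns -/
theorem key_mono (l : (Fin (n + 1) → L) →ₗ[L] L) (hl : TT S ≤ LinearMap.ker l) (m : Fin c)
    (j : Fin (n + 1)) (s : Multiset (Fin (n + 1))) : ∀ b : ℕ, s.card + b = d m →
    S.x j ^ s.card * l (S.V m ((s.map X).prod * X j ^ b)) =
      eval S.x ((s.map X).prod) * l (S.V m (X j ^ d m)) := by
  induction s using Multiset.induction_on with
  | empty =>
    intro b hb
    simp only [Multiset.card_zero, zero_add] at hb
    simp [hb]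
  | cons i s ih =>
    intro b hb
    rw [Multiset.card_cons] at hb
    have hI : (s.map (X : Fin (n + 1) → MvPolynomial (Fin (n + 1)) L)).prod * X j ^ b =
        monomial (Multiset.toFinsupp s + Finsupp.single j b) 1 := by
      rw [prod_map_X, X_pow_eq_monomial, monomial_mul, one_mul]
    have hdeg : (Multiset.toFinsupp s + Finsupp.single j b).degree + 1 = d m := by
      rw [map_add, degree_toFinsupp, Finsupp.degree_single]
      omega
    have hZ : Col.Z m i j (Multiset.toFinsupp s + Finsupp.single j b) ∈ nonU (n := n) d :=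
      ⟨hdeg, fun m => by simp⟩
    have h0 : l (vv S (Col.Z m i j (Multiset.toFinsupp s + Finsupp.single j b))) = 0 :=
      hl (Submodule.subset_span ⟨_, hZ, rfl⟩)
    change l (S.x j • S.V m (X i * monomial _ 1) - S.x i • S.V m (X j * monomial _ 1)) = 0 at h0
    rw [map_sub, map_smul, map_smul, smul_eq_mul, smul_eq_mul, sub_eq_zero, ← hI] at h0
    have h3 := ih (b + 1) (by omega)
    rw [Multiset.map_cons, Multiset.prod_cons, Multiset.card_cons, map_mul (eval S.x), eval_X,
      mul_assoc (X i), pow_succ, mul_assoc, h0]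
    have h4 : X j * ((s.map (X : Fin (n + 1) → MvPolynomial (Fin (n + 1)) L)).prod * X j ^ b) =
        (s.map X).prod * X j ^ (b + 1) := by ring
    rw [h4]
    calc S.x j ^ s.card * (S.x i * l (S.V m ((s.map X).prod * X j ^ (b + 1))))
        = S.x i * (S.x j ^ s.card * l (S.V m ((s.map X).prod * X j ^ (b + 1)))) := by ring
      _ = _ := by rw [h3]; ring

theorem key_hom (l : (Fin (n + 1) → L) →ₗ[L] L) (hl : TT S ≤ LinearMap.ker l) (m : Fin c)
    (j : Fin (n + 1)) {G : MvPolynomial (Fin (n + 1)) L} (hG : G.IsHomogeneous (d m)) :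
    S.x j ^ d m * l (S.V m G) = eval S.x G * l (S.V m (X j ^ d m)) := by
  have hmono : ∀ I : Fin (n + 1) →₀ ℕ, I.degree = d m →
      S.x j ^ d m * l (S.V m (monomial I 1)) =
        eval S.x (monomial I (1 : L)) * l (S.V m (X j ^ d m)) := by
    intro I hI
    have hc : (Finsupp.toMultiset I).card = d m := by
      rw [← degree_toFinsupp, Finsupp.toMultiset_toFinsupp, hI]
    have h1 := key_mono S l hl m j (Finsupp.toMultiset I) 0 (by rw [add_zero, hc])
    rw [prod_map_X, Finsupp.toMultiset_toFinsupp, hc, pow_zero, mul_one] at h1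
    exact h1
  rw [G.as_sum, map_sum, map_sum, map_sum, Finset.mul_sum, Finset.sum_mul]
  refine Finset.sum_congr rfl fun I hI => ?_
  have h1 : (monomial I (coeff I G) : MvPolynomial (Fin (n + 1)) L) =
      coeff I G • monomial I 1 := by rw [smul_monomial]; simp
  have h2 : I.degree = d m := by
    have := hG (mem_support_iff.1 hI)
    rw [← this, Finsupp.degree_eq_weight_one]
    rfl
  rw [h1, map_smul, map_smul, smul_eval, smul_eq_mul, ← mul_assoc, mul_comm (S.x j ^ d m),
    mul_assoc, hmono I h2, mul_assoc]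

theorem TT_eq : TT S = LinearMap.ker (phi S) := by
  refine le_antisymm (TT_le S) fun u hu => ?_
  by_contra hnu
  obtain ⟨l, hlu, hl⟩ := Submodule.exists_le_ker_of_notMem hnu
  obtain ⟨j, hj⟩ : ∃ j, S.x j ≠ 0 := Function.ne_iff.1 S.x_ne
  apply hlu
  -- the functional is a combination of the `F'_m(x)`
  have hp : ∀ p, S.x j * l (Pi.single p 1) =
      - ∑ m, S.x j * (l (S.V m (X j ^ d m)) / S.x j ^ d m) * eval S.x (pderiv p (S.F m)) := by
    intro p
    have hW : Col.W p j ∈ nonU (n := n) d := ⟨trivial, fun m => by simp⟩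
    have h0 : l (vv S (Col.W p j)) = 0 := hl (Submodule.subset_span ⟨_, hW, rfl⟩)
    change l (S.x j • Pi.single p 1 + ∑ m, S.V m (X j * pderiv p (S.F m))) = 0 at h0
    rw [map_add, map_smul, map_sum, smul_eq_mul] at h0
    rw [eq_neg_of_add_eq_zero_left h0]
    congr 1
    refine Finset.sum_congr rfl fun m _ => ?_
    have h1 := key_hom S l hl m j (hom_XF S m p j)
    have h2 : S.x j ^ d m ≠ 0 := pow_ne_zero _ hj
    rw [map_mul (eval S.x), eval_X] at h1
    field_simp
    linear_combination h1
  have hp' : ∀ p, l (Pi.single p 1) =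
      - ∑ m, (l (S.V m (X j ^ d m)) / S.x j ^ d m) * eval S.x (pderiv p (S.F m)) := by
    intro p
    apply mul_left_cancel₀ hj
    rw [hp p, mul_neg, Finset.mul_sum]
    congr 1
    exact Finset.sum_congr rfl fun m _ => by ring
  have hu' : u = ∑ p, u p • Pi.single p (1 : L) := by
    funext q
    simp [Finset.sum_apply, Pi.single_apply]
  rw [hu', map_sum]
  simp only [map_smul, smul_eq_mul, hp']
  have h3 : ∀ m, ∑ p, eval S.x (pderiv p (S.F m)) * u p = 0 := fun m => congrFun hu m
  calc ∑ p, u p * -∑ m, l (S.V m (X j ^ d m)) / S.x j ^ d m * eval S.x (pderiv p (S.F m))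
      = - ∑ m, l (S.V m (X j ^ d m)) / S.x j ^ d m *
          ∑ p, eval S.x (pderiv p (S.F m)) * u p := by
        simp only [mul_neg, Finset.sum_neg_distrib, Finset.mul_sum]
        rw [Finset.sum_comm]
        congr 1
        exact Finset.sum_congr rfl fun m _ => Finset.sum_congr rfl fun p _ => by ring
    _ = 0 := by simp [h3]

theorem range_phi : LinearMap.range (phi S) = ⊤ := by
  obtain ⟨j, hj⟩ : ∃ j, S.x j ≠ 0 := Function.ne_iff.1 S.x_ne
  rw [LinearMap.range_eq_top]
  intro w
  refine ⟨∑ m, (- w m / S.x j ^ d m) • S.V m (X j ^ d m), ?_⟩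
  rw [map_sum]
  funext m
  rw [Finset.sum_apply, Finset.sum_eq_single m]
  · rw [map_smul, phi_V S (by simpa using isHomogeneous_X_pow j (d m))]
    have h2 : S.x j ^ d m ≠ 0 := pow_ne_zero _ hj
    simp only [Pi.smul_apply, Pi.single_eq_same, map_pow, eval_X, smul_eq_mul]
    field_simp
  · intro m' _ hm
    rw [map_smul, phi_V S (by simpa using isHomogeneous_X_pow j (d m'))]
    simp [Pi.single_eq_of_ne (Ne.symm hm)]
  · intro h; exact absurd (Finset.mem_univ _) h

theorem finrank_TT : Module.finrank L (TT S) + c = n + 1 := by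
  have h := LinearMap.finrank_range_add_finrank_ker (phi S)
  rw [range_phi, finrank_top, Module.finrank_fin_fun, Module.finrank_fin_fun, ← TT_eq] at h
  omega

theorem nonU_wt {C : Col n c} (_hC : C ∈ nonU (n := n) d) : C.wt ≤ 2 := by
  cases C <;> simp [Col.wt]

/-- the matrix with columns `f b` and `U m` -/
noncomputable def mat {ι : Type} (f : ι → Col n c) (i : Fin (n + 1)) :
    Matrix (Fin (n + 1)) (ι ⊕ Fin c) L :=
  Matrix.of fun a k => (Sum.elim f Col.U k).val S i a

theorem mat_mul {ι : Type} [Fintype ι] [DecidableEq ι] (f : ι → Col n c)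
    (hf : ∀ b, f b ∈ nonU (n := n) d)
    (hspan : TT S ≤ Submodule.span L (Set.range fun b => vv S (f b))) (i j : Fin (n + 1))
    (hj : S.x j ≠ 0) :
    ∃ r : Matrix ι (Fin c) L, mat S f i = mat S f j *
      Matrix.fromBlocks 1 r 0 (Matrix.diagonal fun m => (S.x i / S.x j) ^ d m) := by
  have h1 : ∀ m : Fin c, ∃ r : ι → L, S.V m (X i ^ d m) =
      (S.x i / S.x j) ^ d m • S.V m (X j ^ d m) + ∑ b, r b • vv S (f b) := by
    intro m
    have hX : ∀ i : Fin (n + 1), (X i ^ d m : MvPolynomial (Fin (n + 1)) L).IsHomogeneous (d m) :=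
      fun i => by simpa using isHomogeneous_X_pow i (d m)
    have hk : S.V m (X i ^ d m) - (S.x i / S.x j) ^ d m • S.V m (X j ^ d m) ∈ TT S := by
      rw [TT_eq, LinearMap.mem_ker, map_sub, map_smul, phi_V S (hX i), phi_V S (hX j),
        ← Pi.single_smul, ← Pi.single_sub]
      have : -(eval S.x) (X i ^ d m : MvPolynomial (Fin (n + 1)) L) -
          (S.x i / S.x j) ^ d m • -(eval S.x) (X j ^ d m : MvPolynomial (Fin (n + 1)) L) = 0 := by
        have h2 : S.x j ^ d m ≠ 0 := pow_ne_zero _ hj
        simp only [map_pow, eval_X, smul_eq_mul, div_pow]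
        field_simp
        ring
      rw [this, Pi.single_zero]
    obtain ⟨r, hr⟩ := (Submodule.mem_span_range_iff_exists_fun L).1 (hspan hk)
    exact ⟨r, by rw [hr]; abel⟩
  choose r hr using h1
  refine ⟨Matrix.of fun b m => r m b, ?_⟩
  ext a k
  rw [Matrix.mul_apply, Fintype.sum_sum_type]
  cases k with
  | inl b =>
    simp only [Matrix.fromBlocks_apply₁₁, Matrix.fromBlocks_apply₂₁, Matrix.zero_apply, mul_zero,
      Finset.sum_const_zero, add_zero, Matrix.one_apply, mul_ite, mul_one]
    rw [Finset.sum_ite_eq' Finset.univ b]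
    simp only [Finset.mem_univ, if_true, mat, Matrix.of_apply, Sum.elim_inl]
    rw [val_eq_vv S (hf b).2 i, val_eq_vv S (hf b).2 j]
  | inr m =>
    simp only [Matrix.fromBlocks_apply₁₂, Matrix.fromBlocks_apply₂₂, Matrix.of_apply,
      Matrix.diagonal_apply, mul_ite, mul_zero]
    rw [Finset.sum_ite_eq' Finset.univ m]
    simp only [Finset.mem_univ, if_true, mat, Matrix.of_apply, Sum.elim_inl, Sum.elim_inr]
    have h2 := congrFun (hr m) a
    change S.V m (X i ^ d m) a = _ + S.V m (X j ^ d m) a * _
    rw [h2]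
    simp only [Pi.add_apply, Pi.smul_apply, smul_eq_mul, Finset.sum_apply]
    rw [add_comm, mul_comm ((S.x i / S.x j) ^ d m)]
    congr 1
    refine Finset.sum_congr rfl fun b _ => ?_
    rw [val_eq_vv S (hf b).2 j, mul_comm]

theorem mat_li {ι : Type} [Fintype ι] (f : ι → Col n c)
    (hf : ∀ b, f b ∈ nonU (n := n) d) (hli : LinearIndependent L fun b => vv S (f b))
    (j : Fin (n + 1)) (hj : S.x j ≠ 0) : LinearIndependent L (mat S f j).col := by
  rw [Fintype.linearIndependent_iff]
  intro g hg
  rw [Fintype.sum_sum_type] at hg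
  have hX : ∀ m, (X j ^ d m : MvPolynomial (Fin (n + 1)) L).IsHomogeneous (d m) :=
    fun m => by simpa using isHomogeneous_X_pow j (d m)
  have e1 : ∀ b, (mat S f j).col (Sum.inl b) = vv S (f b) := fun b => by
    rw [← val_eq_vv S (hf b).2 j]; rfl
  have e2 : ∀ m, (mat S f j).col (Sum.inr m) = S.V m (X j ^ d m) := fun m => rfl
  simp only [e1, e2] at hg
  have h0 := congrArg (phi S) hg
  rw [map_add, map_sum, map_sum, map_zero] at h0
  have h1 : ∀ b, phi S (g (Sum.inl b) • vv S (f b)) = 0 := fun b => by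
    rw [map_smul, phi_vv S (hf b), smul_zero]
  simp only [h1, Finset.sum_const_zero, zero_add] at h0
  have h2 : ∀ m, g (Sum.inr m) = 0 := by
    intro m
    have h3 := congrFun h0 m
    rw [Finset.sum_apply, Finset.sum_eq_single m] at h3
    · rw [map_smul, phi_V S (hX m)] at h3
      simp only [Pi.smul_apply, Pi.single_eq_same, map_pow, eval_X, smul_eq_mul, Pi.zero_apply,
        mul_neg, neg_eq_zero, mul_eq_zero] at h3
      exact h3.resolve_right (pow_ne_zero _ hj)
    · intro m' _ hm
      rw [map_smul, phi_V S (hX m')]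
      simp [Pi.single_eq_of_ne (Ne.symm hm)]
    · intro h; exact absurd (Finset.mem_univ _) h
  simp only [h2, zero_smul, Finset.sum_const_zero, add_zero] at hg
  have h4 := Fintype.linearIndependent_iff.1 hli _ hg
  intro k
  cases k with
  | inl b => exact h4 b
  | inr m => exact h2 m

theorem lin : LinStatement := by
  intro L _ n c d S
  classical
  obtain ⟨j, hj⟩ : ∃ j, S.x j ≠ 0 := Function.ne_iff.1 S.x_ne
  -- choose a basis of the kernel out of the columns
  have hpt : (Col.pt : Col n c) ∈ nonU (n := n) d := ⟨trivial, fun m => by simp⟩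
  obtain ⟨b, hbt, hsb, hspan, hli⟩ := exists_linearIndepOn_extension (K := L) (v := vv S)
    (s := {(Col.pt : Col n c)}) (t := nonU (n := n) d)
    (by rw [linearIndepOn_singleton_iff]; exact S.x_ne)
    (by rw [Set.singleton_subset_iff]; exact hpt)
  have hli' : LinearIndependent L fun x : b => vv S x.1 := hli
  have hTb : Submodule.span L (Set.range fun x : b => vv S x.1) = TT S := by
    have hr : (Set.range fun x : b => vv S x.1) = vv S '' b := by
      ext y; simp
    rw [hr]
    refine le_antisymm (Submodule.span_mono (Set.image_mono hbt)) ?_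
    rw [TT, Submodule.span_le]
    exact hspan
  have hfb : Finite b := hli'.finite
  have : Fintype b := Fintype.ofFinite b
  have hcard : Fintype.card b + c = n + 1 := by
    have h1 := finrank_span_eq_card hli'
    rw [hTb] at h1
    rw [← h1]
    exact finrank_TT S
  have e : Fin (n + 1) ≃ b ⊕ Fin c := Fintype.equivOfCardEq (by
    rw [Fintype.card_sum, Fintype.card_fin, Fintype.card_fin, hcard])
  let f : b → Col n c := fun x => x.1
  have hf : ∀ x, f x ∈ nonU (n := n) d := fun x => hbt x.2
  let C : Fin (n + 1) → Col n c := fun k => Sum.elim f Col.U (e k)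
  have hdet : ∀ i, S.det C i = ((mat S f i).submatrix id e).det := fun i => rfl
  have hne : S.det C j ≠ 0 := by
    rw [hdet]
    have h1 := mat_li S f hf hli' j hj
    have h2 : LinearIndependent L ((mat S f j).submatrix id e).col := h1.comp e e.injective
    rw [Matrix.linearIndependent_cols_iff_isUnit, Matrix.isUnit_iff_isUnit_det] at h2
    exact h2.ne_zero
  refine ⟨C, S.det C j / S.x j ^ (∑ m, d m), div_ne_zero hne (pow_ne_zero _ hj),
    ⟨e.symm (Sum.inl ⟨Col.pt, hsb rfl⟩), ?_⟩, ?_, ?_, ?_⟩
  · simp [C, f]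
  · intro k
    change (Sum.elim f Col.U (e k)).Ok d
    cases e k with
    | inl x => exact (hf x).1
    | inr m => trivial
  · have h1 : ∑ k, (C k).wt = ∑ k : b ⊕ Fin c, (Sum.elim f Col.U k).wt :=
      e.sum_comp fun k => (Sum.elim f Col.U k : Col n c).wt
    have hU : ∀ m : Fin c, (Col.U m : Col n c).wt = 1 := fun _ => rfl
    rw [h1, Fintype.sum_sum_type]
    simp only [Sum.elim_inl, Sum.elim_inr, hU, Finset.sum_const, Finset.card_univ,
      Fintype.card_fin, smul_eq_mul, mul_one]
    have h2 : ∑ x : b, (f x).wt ≤ 1 + 2 * (Fintype.card b - 1) := by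
      rw [← Finset.add_sum_erase Finset.univ _ (Finset.mem_univ (⟨Col.pt, hsb rfl⟩ : b))]
      refine add_le_add le_rfl ?_
      refine (Finset.sum_le_card_nsmul _ _ 2 fun x _ => nonU_wt (hf x)).trans ?_
      rw [Finset.card_erase_of_mem (Finset.mem_univ _), Finset.card_univ, smul_eq_mul, mul_comm]
    have h3 : 0 < Fintype.card b := Fintype.card_pos_iff.2 ⟨⟨Col.pt, hsb rfl⟩⟩
    omega
  · intro i
    obtain ⟨r, hr⟩ := mat_mul S f hf hTb.ge i j hj
    rw [hdet i, hr, ← Matrix.submatrix_mul_equiv _ _ id e e, Matrix.det_mul, ← hdet j,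
      Matrix.det_submatrix_equiv_self, Matrix.det_fromBlocks_zero₂₁, Matrix.det_one, one_mul,
      Matrix.det_diagonal, Finset.prod_pow_eq_pow_sum, div_pow]
    ring

end Pool.Agent.Gen.H26
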