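import Pool.Agent.Lib.MP_c7af3c_ag.GEN.Interfaces

/-! Module RIGID. -/

set_option autoImplicit false

namespace Pool.Agent.Gen.H26

open MvPolynomial WithZero IsDedekindDomain IntermediateField

section seid

variable {C Ω : Type} [Field C] [Field Ω] [Algebra C Ω] (KK EE : IntermediateField C Ω)
  (G : Set Ω)

/-- `C[ε'] → KK[τ']` -/
theorem exists_phi (τ' : IntermediateField.adjoin KK G) :
    ∃ φ : Algebra.adjoin C {(τ' : Ω)} →+* PA KK τ',
      ∀ z, (((φ z : PA KK τ') : IntermediateField.adjoin KK G) : Ω) = z := by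
  have h1 : ∀ z : Algebra.adjoin C {(τ' : Ω)}, ∃ w : PA KK τ',
      ((w : IntermediateField.adjoin KK G) : Ω) = z := by
    rintro ⟨z, hz⟩
    rw [Algebra.adjoin_singleton_eq_range_aeval] at hz
    obtain ⟨q, hq⟩ := hz
    refine ⟨⟨Polynomial.aeval τ' (q.map (algebraMap C KK)),
      Polynomial.aeval_mem_adjoin_singleton _ _⟩, ?_⟩
    change algebraMap (IntermediateField.adjoin KK G) Ω _ = z
    rw [← hq, ← Polynomial.aeval_algebraMap_apply, Polynomial.aeval_map_algebraMap]
    rfl
  choose f hf using h1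
  have hinj : ∀ a b : PA KK τ', ((a : IntermediateField.adjoin KK G) : Ω) =
      ((b : IntermediateField.adjoin KK G) : Ω) → a = b := fun a b h =>
    Subtype.ext (Subtype.ext h)
  refine ⟨{ toFun := f, map_one' := hinj _ _ ?_, map_mul' := fun a b => hinj _ _ ?_,
            map_zero' := hinj _ _ ?_, map_add' := fun a b => hinj _ _ ?_ }, hf⟩
  · rw [hf]; rfl
  · rw [hf]
    simp only [MulMemClass.coe_mul, hf]
  · rw [hf]; rfl
  · rw [hf]
    simp only [AddMemClass.coe_add, hf]

theorem integral_of (τ' g : IntermediateField.adjoin KK G)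
    (hg : IsIntegral (Algebra.adjoin C {(τ' : Ω)}) (g : Ω)) : IsIntegral (PA KK τ') g := by
  obtain ⟨φ, hφ⟩ := exists_phi KK G τ'
  have h1 : IsIntegral (PA KK τ') (algebraMap (IntermediateField.adjoin KK G) Ω g) :=
    hg.map_of_comp_eq φ (RingHom.id Ω) (by ext z; exact hφ z)
  exact (isIntegral_algebraMap_iff (algebraMap (IntermediateField.adjoin KK G) Ω).injective).1 h1

open scoped IntermediateField.algebraAdjoinAdjoin in
theorem seid_app (hSeid : SeidStatement) (τ' : IntermediateField.adjoin KK G)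
    (h' : FF KK (IntermediateField.adjoin KK G) τ') (hτ : (τ' : Ω) ∈ EE) (S : Set Ω)
    (hS : ∀ s ∈ S, s ∈ EE ∧ IsAlgebraic (IntermediateField.adjoin C {(τ' : Ω)}) s)
    (hL : IntermediateField.adjoin KK
      (insert τ' {l : IntermediateField.adjoin KK G | (l : Ω) ∈ S}) = ⊤)
    (δ : Derivation ℤ (IntermediateField.adjoin KK G) (IntermediateField.adjoin KK G))
    (hδ : ∀ a : KK, ∃ b : KK, δ (algebraMap KK (IntermediateField.adjoin KK G) a) =
      algebraMap KK (IntermediateField.adjoin KK G) b)
    (hδE : ∀ g : IntermediateField.adjoin KK G, (g : Ω) ∈ EE → δ g = 0) :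
    ∀ z, IsIntegral (PA KK τ') z → IsIntegral (PA KK τ') (δ z) := by
  refine hSeid KK (IntermediateField.adjoin KK G) τ' h' δ
    {g | (g : Ω) ∈ EE ∧ IsIntegral (PA KK τ') g} hδ (hδE _ hτ) (fun g hg => ⟨hδE g hg.1, hg.2⟩) ?_
  rw [eq_top_iff, ← hL, IntermediateField.adjoin_le_iff]
  intro l hl
  rcases Set.mem_insert_iff.1 hl with rfl | hl
  · exact IntermediateField.subset_adjoin _ _ (Set.mem_insert _ _)
  · obtain ⟨hlE, hla⟩ := hS _ hl
    have hla' : IsAlgebraic (Algebra.adjoin C {(τ' : Ω)}) (l : Ω) :=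
      (IsFractionRing.isAlgebraic_iff (Algebra.adjoin C {(τ' : Ω)})
        (IntermediateField.adjoin C {(τ' : Ω)}) Ω).2 hla
    obtain ⟨y, hy0, hy⟩ := hla'.exists_integral_multiple
    obtain ⟨φ, hφ⟩ := exists_phi KK G τ'
    -- the element `y` in `L`
    have hyE : (y : Ω) ∈ EE := by
      have h1 : Algebra.adjoin C {(τ' : Ω)} ≤ EE.toSubalgebra :=
        Algebra.adjoin_le (by rw [Set.singleton_subset_iff]; exact hτ)
      exact h1 y.2
    have hy1 : ((φ y : PA KK τ') : IntermediateField.adjoin KK G) ∈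
        IntermediateField.adjoin KK (insert τ' {g : IntermediateField.adjoin KK G |
          (g : Ω) ∈ EE ∧ IsIntegral (PA KK τ') g}) := by
      have h1 : Algebra.adjoin KK {τ'} ≤ (IntermediateField.adjoin KK
          (insert τ' {g : IntermediateField.adjoin KK G |
          (g : Ω) ∈ EE ∧ IsIntegral (PA KK τ') g})).toSubalgebra :=
        Algebra.adjoin_le (by
          rw [Set.singleton_subset_iff]
          exact IntermediateField.subset_adjoin _ _ (Set.mem_insert _ _))
      exact h1 (φ y).2
    have hy2 : ((φ y : PA KK τ') : IntermediateField.adjoin KK G) ≠ 0 := by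
      intro h0
      apply hy0
      apply Subtype.ext
      rw [← hφ y, h0]
      rfl
    have hg : ((φ y : PA KK τ') : IntermediateField.adjoin KK G) * l ∈
        {g : IntermediateField.adjoin KK G | (g : Ω) ∈ EE ∧ IsIntegral (PA KK τ') g} := by
      have e1 : ((((φ y : PA KK τ') : IntermediateField.adjoin KK G) * l :
          IntermediateField.adjoin KK G) : Ω) = y • (l : Ω) := by
        rw [MulMemClass.coe_mul, hφ]; rfl
      refine ⟨?_, integral_of KK G τ' _ ?_⟩
      · rw [e1]; exact mul_mem hyE hlE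
      · rw [e1]; exact hy
    have hg1 := IntermediateField.subset_adjoin KK
      (insert τ' {g : IntermediateField.adjoin KK G | (g : Ω) ∈ EE ∧ IsIntegral (PA KK τ') g})
      (Set.mem_insert_of_mem _ hg)
    have e2 : l = ((φ y : PA KK τ') : IntermediateField.adjoin KK G)⁻¹ *
        (((φ y : PA KK τ') : IntermediateField.adjoin KK G) * l) := by
      rw [← mul_assoc, inv_mul_cancel₀ hy2, one_mul]
    rw [e2]
    exact mul_mem (inv_mem hy1) hg1

end seid

theorem rigid (hReln : RelnStatement) (hLin : LinStatement) (hLoc : LocStatement)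
    (hGlob : GlobStatement) (hProd : ProdStatement) (hPlace : PlaceStatement)
    (hAlgc : AlgcStatement) (hDerz : DerzStatement) (hSeid : SeidStatement)
    (hRes : ResStatement) (hRigff : RigffStatement) (hRestr : RestrStatement) :
    RigidStatement := by
  intro C Ω _ _ _ _ _ n c d A hD ε hεE hεt S hSf hS x j0 hx0 hxF hxL
  set G : Set Ω := insert ε S with hG
  have hεG : ε ∈ IntermediateField.adjoin A.KK G :=
    IntermediateField.subset_adjoin _ _ (Set.mem_insert _ _)
  set τ : IntermediateField.adjoin A.KK G := ⟨ε, hεG⟩ with hτ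
  have h : FF A.KK (IntermediateField.adjoin A.KK G) τ :=
    hRigff C Ω A.KK A.EE A.ld ε hεE hεt S hSf hS
  have hε0 : ε ≠ 0 := fun h0 => hεt (h0 ▸ isAlgebraic_zero)
  obtain ⟨D', hD'F, hD'd⟩ := hRestr C Ω n c d A G (by
    intro g hg
    rcases Set.mem_insert_iff.1 hg with rfl | hg
    · exact hεE
    · exact (hS g hg).1)
  have hinj : Function.Injective (algebraMap (IntermediateField.adjoin A.KK G) Ω) :=
    fun a b h => Subtype.ext h
  -- properties of the derivations
  have hδ : ∀ m I, I.degree = d m → ∀ a : A.KK, ∃ b : A.KK,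
      D'.del m I (algebraMap A.KK (IntermediateField.adjoin A.KK G) a) =
        algebraMap A.KK (IntermediateField.adjoin A.KK G) b := by
    intro m I hI a
    refine ⟨⟨A.D.del m I a, A.del_KK m I hI a a.2⟩, ?_⟩
    apply Subtype.ext
    rw [hD'd m I hI]
    rfl
  have hδE : ∀ m I, I.degree = d m → ∀ g : IntermediateField.adjoin A.KK G, (g : Ω) ∈ A.EE →
      D'.del m I g = 0 := by
    intro m I hI g hg
    apply Subtype.ext
    rw [hD'd m I hI, A.del_EE m I hI _ hg]
    rfl
  -- generation
  have hgen : IntermediateField.adjoin A.KK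
      (insert τ {l : IntermediateField.adjoin A.KK G | (l : Ω) ∈ S}) = ⊤ := by
    apply IntermediateField.lift_injective
    rw [IntermediateField.lift_adjoin, IntermediateField.lift_top]
    congr 1
    ext z
    simp only [Set.mem_image, Set.mem_insert_iff, hG]
    constructor
    · rintro ⟨l, hl | hl, rfl⟩
      · left; rw [hl]
      · right; exact hl
    · rintro (hz | hz)
      · exact ⟨τ, Or.inl rfl, hz.symm⟩
      · exact ⟨⟨z, IntermediateField.subset_adjoin _ _ (Set.mem_insert_of_mem _ hz)⟩,
          Or.inr hz, rfl⟩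
  have hgen' : IntermediateField.adjoin A.KK
      (insert τ⁻¹ {l : IntermediateField.adjoin A.KK G | (l : Ω) ∈ S}) = ⊤ := by
    rw [eq_top_iff, ← hgen, IntermediateField.adjoin_le_iff]
    intro l hl
    rcases Set.mem_insert_iff.1 hl with rfl | hl
    · have := inv_mem (IntermediateField.subset_adjoin A.KK
        (insert τ⁻¹ {l : IntermediateField.adjoin A.KK G | (l : Ω) ∈ S}) (Set.mem_insert _ _))
      rwa [inv_inv] at this
    · exact IntermediateField.subset_adjoin _ _ (Set.mem_insert_of_mem _ hl)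
  have hS' : ∀ s ∈ S, s ∈ A.EE ∧
      IsAlgebraic (IntermediateField.adjoin C {((τ⁻¹ : IntermediateField.adjoin A.KK G) : Ω)})
        s := by
    have e : IntermediateField.adjoin C {((τ⁻¹ : IntermediateField.adjoin A.KK G) : Ω)} =
        IntermediateField.adjoin C {ε} := by
      have e0 : ((τ⁻¹ : IntermediateField.adjoin A.KK G) : Ω) = ε⁻¹ := rfl
      rw [e0]
      apply le_antisymm
      · rw [IntermediateField.adjoin_simple_le_iff]
        exact inv_mem (IntermediateField.mem_adjoin_simple_self C ε)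
      · rw [IntermediateField.adjoin_simple_le_iff]
        have := inv_mem (IntermediateField.mem_adjoin_simple_self C ε⁻¹)
        rwa [inv_inv] at this
    rw [e]
    exact hS
  -- bounds at all places
  have hder : ∀ p m I, I.degree = d m → ∀ f, (ffPlaces h).v p f ≤ 1 →
      (ffPlaces h).v p (D'.del m I f) ≤ exp ((0 : ℕ) : ℤ) := by
    intro p m I hI f hf
    have h1 := hDerz A.KK _ τ h (D'.del m I)
      (seid_app A.KK A.EE G hSeid τ h hεE S hS hgen (D'.del m I) (hδ m I hI) (hδE m I hI))
      (seid_app A.KK A.EE G hSeid τ⁻¹ h.inv (inv_mem hεE) S hS' hgen' (D'.del m I) (hδ m I hI)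
        (hδE m I hI)) p f hf
    simpa using h1
  have hcoef : ∀ p m I, (ffPlaces h).v p (coeff I (D'.F m)) ≤ exp ((0 : ℕ) : ℤ) := by
    intro p m I
    have h1 : ((coeff I (D'.F m) : IntermediateField.adjoin A.KK G) : Ω) ∈ A.KK := by
      have h2 := A.coeff_mem m I
      rw [← hD'F m, coeff_map] at h2
      exact h2
    have h3 : coeff I (D'.F m) = algebraMap A.KK (IntermediateField.adjoin A.KK G) ⟨_, h1⟩ :=
      Subtype.ext rfl
    rw [h3]
    simpa using (hPlace A.KK _ τ h).const p ⟨_, h1⟩
  -- the point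
  set x' : Fin (n + 1) → IntermediateField.adjoin A.KK G := fun j => ⟨x j, hxL j⟩ with hx'
  have hx'0 : x' j0 = 1 := Subtype.ext hx0
  have hx'ne : x' ≠ 0 := fun h0 => by
    rw [h0] at hx'0
    exact zero_ne_one hx'0
  have hx'F : ∀ m, eval x' (D'.F m) = 0 := by
    intro m
    apply hinj
    rw [map_zero, ← hxF m, ← hD'F m, eval_map, ← MvPolynomial.eval₂_id, eval₂_comp_left]
    rfl
  have hht := hGlob hReln hLin hLoc _ n c d D' x' hx'ne hx'F hD (ffPlaces h)
    (hProd _ _ τ h) (fun _ => 0) (by simp) hder hcoef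
  simp only [Nat.cast_zero, mul_zero, finsum_zero] at hht
  intro j
  have hv : ∀ p, 0 < (ffPlaces h).w p → (ffPlaces h).v p (x' j) ≤ 1 := by
    intro p hp
    have := (ffPlaces h).v_le_of_ht_le x' (hProd _ _ τ h).fin hx'0 hht p hp j
    simpa using this
  have halg : IsAlgebraic A.KK (x' j) := hAlgc _ _ τ h _ hv
  have halg' : IsAlgebraic A.KK (x j) := by
    have := halg.algebraMap (A := Ω)
    exact this
  refine hRes C Ω A.KK A.EE A.ld (x j) ?_ halg'
  -- membership
  have hle : ∀ y ∈ IntermediateField.adjoin A.KK G, y ∈ A.KK ⊔ A.EE := by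
    have h1 : IntermediateField.adjoin A.KK G ≤
        IntermediateField.extendScalars (le_sup_left : A.KK ≤ A.KK ⊔ A.EE) := by
      rw [IntermediateField.adjoin_le_iff]
      intro g hg
      change g ∈ A.KK ⊔ A.EE
      apply (le_sup_right : A.EE ≤ A.KK ⊔ A.EE)
      rcases Set.mem_insert_iff.1 hg with rfl | hg
      · exact hεE
      · exact (hS g hg).1
    exact fun y hy => h1 hy
  exact hle _ (hxL j)

end Pool.Agent.Gen.H26
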