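import Pool.Agent.Lib.MP_c7af3c_ag.GEN.H12.Ldt
import Pool.Agent.Lib.MP_c7af3c_ag.GEN.H12.Reln
import Pool.Agent.Lib.MP_c7af3c_ag.GEN.H12.Restr
import Pool.Agent.Lib.MP_c7af3c_ag.GEN.H17.Spread
import Pool.Agent.Lib.MP_c7af3c_ag.GEN.H17.Stens
import Pool.Agent.Lib.MP_c7af3c_ag.GEN.H19.Chain
import Pool.Agent.Lib.MP_c7af3c_ag.GEN.H26.Lin
import Pool.Agent.Lib.MP_c7af3c_ag.GEN.H26.Rigid
import Pool.Agent.Lib.MP_c7af3c_ag.GEN.H36.Deriv
import Pool.Agent.Lib.MP_c7af3c_ag.GEN.H38.Sinj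
import Pool.Agent.Lib.MP_c7af3c_ag.GEN.H38.Sproj
import Pool.Agent.Lib.MP_c7af3c_ag.GEN.H38.Thml
import Pool.Agent.Lib.MP_c7af3c_ag.GEN.H51.Algc
import Pool.Agent.Lib.MP_c7af3c_ag.GEN.H51.Coord
import Pool.Agent.Lib.MP_c7af3c_ag.GEN.H51.Derz
import Pool.Agent.Lib.MP_c7af3c_ag.GEN.H52.Glob
import Pool.Agent.Lib.MP_c7af3c_ag.GEN.H52.Height
import Pool.Agent.Lib.MP_c7af3c_ag.GEN.H52.Loc
import Pool.Agent.Lib.MP_c7af3c_ag.GEN.H52.Thm1
import Pool.Agent.Lib.MP_c7af3c_ag.GEN.H58.Prod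
import Pool.Agent.Lib.MP_c7af3c_ag.GEN.H59.Derb
import Pool.Agent.Lib.MP_c7af3c_ag.GEN.H59.Sfib
import Pool.Agent.Lib.MP_c7af3c_ag.GEN.H81.Seid
import Pool.Agent.Lib.MP_c7af3c_ag.GEN.H81.Sfin
import Pool.Agent.Lib.MP_c7af3c_ag.GEN.H81.Ultra
import Pool.Agent.Lib.MP_c7af3c_ag.GEN.H83.Rigff
import Pool.Agent.Lib.MP_c7af3c_ag.GEN.H91.Coef
import Pool.Agent.Lib.MP_c7af3c_ag.GEN.H91.Degi
import Pool.Agent.Lib.MP_c7af3c_ag.GEN.H94.Place
import Pool.Agent.Lib.MP_c7af3c_ag.GEN.H96.Res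
import Pool.Agent.Lib.MP_c7af3c_ag.GEN.H96.Sfrac
import Pool.Agent.Lib.MP_c7af3c_ag.GEN.H97.Normid

/-! Assembly of project GEN (MP_c7af3c_ag). -/

namespace Pool.Agent.Gen.H26

theorem normidAll : NormidStatement := H97.normid
theorem placeAll : PlaceStatement := H94.place normidAll
theorem prodAll : ProdStatement := H58.prod normidAll placeAll

theorem rigidAll : RigidStatement :=
  rigid H12.reln lin H52.loc H52.glob prodAll placeAll (H51.algc placeAll) H51.derz H81.seid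
    H96.res H83.rigff H12.restr

theorem chainAll : ChainStatement := H19.chain rigidAll H12.ldt

theorem heightAll : HeightStatement :=
  H52.height H12.reln lin H52.loc H52.glob prodAll H59.derb H83.dir

/-- Theorem 1 of Paper.md. -/
theorem thm1All : Thm1Statement :=
  H52.thm1 H36.deriv H83.dir heightAll (H91.coef (H51.Coord.coord placeAll) H91.degi) H81.ultra chainAll

/-- Theorem L of Paper.md. -/
theorem thmlAll : ThmlStatement := H38.thml thm1All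

theorem sfinAll : SfinStatement :=
  H81.sfin thmlAll (H17.spread H96.sfrac H17.stens) H38.sinj H38.sproj H59.sfib

end Pool.Agent.Gen.H26
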